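import Pool.Agent.Helper23.UBic
import Pool.Agent.Helper68.G2b4
import Pool.Agent.Helper75.UDom

/-!
# Module U7, part 2: from the defect to one-sided domination
-/

open scoped InnerProductSpace Topology BoundedContinuousFunction ComplexOrder
open ContinuousLinearMap Filter

namespace Pool.Agent.Helper23

variable {H : Type*} [NormedAddCommGroup H] [InnerProductSpace ℂ H] [CompleteSpace H]
variable {M N : VonNeumannAlgebra H} {ξ : H} {E : (H →L[ℂ] H) → (H →L[ℂ] H)}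

/-- a self-adjoint element of norm at most one is at most `1`; square root of the difference. -/
lemma exists_sqrt_one_sub {A : Type*} [CStarAlgebra A] {α : A} (hα : IsSelfAdjoint α)
    (h1 : ‖α‖ ≤ 1) : ∃ b : A, 1 - α = star b * b := by
  let _ : PartialOrder A := CStarAlgebra.spectralOrder _
  let _ : StarOrderedRing A := CStarAlgebra.spectralOrderedRing _
  refine CStarAlgebra.nonneg_iff_eq_star_mul_self.1 ?_
  rw [sub_nonneg]
  refine (IsSelfAdjoint.le_algebraMap_norm_self (a := α) hα).trans ?_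
  rw [Algebra.algebraMap_eq_smul_one]
  calc ‖α‖ • (1 : A) ≤ (1 : ℝ) • (1 : A) := smul_le_smul_of_nonneg_right h1 zero_le_one
    _ = 1 := one_smul _ _

/-- For a bounded sequence of asymptotic eigenoperators `a` with `‖a n‖ ≤ 1` there are `b n` in
`N`, asymptotically in the centralizer, with `a n (a n)* + (b n)* b n = 1`. -/
lemma exists_sqrt_seq (hξ : ‖ξ‖ = 1) {l : ℝ} (hl : 0 < l) {a : ℕ → H →L[ℂ] H}
    (haN : ∀ n, a n ∈ N) (ha1 : ∀ n, ‖a n‖ ≤ 1) (ha : Dseq N ξ l a) :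
    ∃ (b : ℕ → H →L[ℂ] H) (C : ℝ), (∀ n, b n ∈ N) ∧ (∀ n, ‖b n‖ ≤ C) ∧ Dseq N ξ 1 b ∧
      ∀ n, a n * star (a n) = 1 - star (b n) * b n := by
  have hcl : IsClosed (ACalg N ξ : Set (ℕ →ᵇ N.toStarSubalgebra)) := ACalg_isClosed hξ
  have hnorm : ∀ n, ‖a n * star (a n)‖ ≤ 1 := by
    intro n
    refine (norm_mul_le _ _).trans ?_
    rw [norm_star]
    have := ha1 n
    nlinarith [norm_nonneg (a n)]
  let α' : ℕ →ᵇ N.toStarSubalgebra :=
    BoundedContinuousFunction.ofNormedAddCommGroup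
      (fun n => (⟨a n * star (a n), mul_mem (haN n) (star_mem (haN n))⟩ : N.toStarSubalgebra))
      continuous_of_discreteTopology 1 (fun n => hnorm n)
  have hα'n : ∀ n, ((α' n : N.toStarSubalgebra) : H →L[ℂ] H) = a n * star (a n) := fun n => rfl
  have hα' : α' ∈ ACalg N ξ := by
    have h1 := Dseq.mul (C := 1) haN (fun n => star_mem (haN n)) ha1
      (fun n => by rw [norm_star]; exact ha1 n) ha (ha.star hl)
    rw [mul_inv_cancel₀ hl.ne'] at h1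
    exact h1
  have hsa : IsSelfAdjoint (⟨α', hα'⟩ : ACalg N ξ) := by
    rw [isSelfAdjoint_iff]
    apply Subtype.ext
    ext n
    change star (a n * star (a n)) _ = _
    rw [star_mul, star_star]
    rfl
  have hn1 : ‖(⟨α', hα'⟩ : ACalg N ξ)‖ ≤ 1 := by
    change ‖α'‖ ≤ 1
    exact BoundedContinuousFunction.norm_ofNormedAddCommGroup_le _ zero_le_one _
  obtain ⟨b, hb⟩ := exists_sqrt_one_sub (A := ACalg N ξ) hsa hn1
  refine ⟨fun n => (((b : ℕ →ᵇ N.toStarSubalgebra) n : N.toStarSubalgebra) : H →L[ℂ] H),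
    ‖(b : ℕ →ᵇ N.toStarSubalgebra)‖, fun n => Subtype.prop _,
    fun n => (b : ℕ →ᵇ N.toStarSubalgebra).norm_coe_le_norm n, b.2, fun n => ?_⟩
  have h1 := congrArg (fun z : ACalg N ξ => (((z : ℕ →ᵇ N.toStarSubalgebra) n :
    N.toStarSubalgebra) : H →L[ℂ] H)) hb
  change (1 : H →L[ℂ] H) - a n * star (a n) = star (((b : ℕ →ᵇ N.toStarSubalgebra) n :
    N.toStarSubalgebra) : H →L[ℂ] H) * (((b : ℕ →ᵇ N.toStarSubalgebra) n :
    N.toStarSubalgebra) : H →L[ℂ] H) at h1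
  rw [← h1, sub_sub_cancel]

namespace Setting

variable (S : Setting M N E ξ)
include S

/-- one-sided domination -/
lemma dom_of_defect {l δ δ' Cb : ℝ} (hl : 0 < l) (hδ : 0 ≤ δ) (hδ' : 0 ≤ δ')
    {a b : H →L[ℂ] H} (ha : a ∈ N) (ha1 : ‖a‖ ≤ 1)
    (hb : b ∈ N) (hb1 : ‖b‖ ≤ Cb) (hab : a * star a = 1 - star b * b)
    (hD : Defect N ξ l δ a) (hD' : Defect N ξ 1 δ' (star b)) {x : H →L[ℂ] H} (hx : x ∈ M)
    (hx0 : 0 ≤ x) :
    (⟪a ξ, x (a ξ)⟫_ℂ).re ≤ l * (⟪ξ, x ξ⟫_ℂ).re + (δ + l * (δ' * Cb)) * ‖x‖ := by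
  have hCb : 0 ≤ Cb := (norm_nonneg _).trans hb1
  have hEx := S.E_mem x hx
  have hEn := S.E_norm hx
  have e1 : ⟪a ξ, x (a ξ)⟫_ℂ = ⟪ξ, (star a * E x) (a ξ)⟫_ℂ := by
    rw [← S.E_inner ha ha hx]
    change _ = ⟪ξ, (star a) (E x (a ξ))⟫_ℂ
    rw [inner_star_right]
  have h1 := hD (star a * E x) (mul_mem (star_mem ha) hEx)
  have n1 : ‖star a * E x‖ ≤ ‖x‖ := by
    refine (norm_mul_le _ _).trans ?_
    rw [norm_star]
    calc ‖a‖ * ‖E x‖ ≤ 1 * ‖x‖ := mul_le_mul ha1 hEn (norm_nonneg _) zero_le_one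
      _ = ‖x‖ := one_mul _
  have e2 : ⟪ξ, a ((star a * E x) ξ)⟫_ℂ = ⟪ξ, x ξ⟫_ℂ - ⟪ξ, (star b) ((b * E x) ξ)⟫_ℂ := by
    have e3 : a ((star a * E x) ξ) = E x ξ - (star b) ((b * E x) ξ) := by
      have := congrArg (fun T : H →L[ℂ] H => T (E x ξ)) hab
      change a ((star a) (E x ξ)) = E x ξ - (star b) (b (E x ξ)) at this
      exact this
    rw [e3, inner_sub_right, S.E_state x hx]
  have h2 := hD' (b * E x) (mul_mem hb hEx)
  have n2 : ‖b * E x‖ ≤ Cb * ‖x‖ :=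
    (norm_mul_le _ _).trans (mul_le_mul hb1 hEn (norm_nonneg _) hCb)
  have e4 : ⟪ξ, (b * E x) ((star b) ξ)⟫_ℂ = ⟪(star b) ξ, x ((star b) ξ)⟫_ℂ := by
    rw [← S.E_inner (star_mem hb) (star_mem hb) hx]
    change ⟪ξ, b (E x ((star b) ξ))⟫_ℂ = _
    rw [inner_star_left]
  have h3 : 0 ≤ (⟪(star b) ξ, x ((star b) ξ)⟫_ℂ).re :=
    ((nonneg_iff_isPositive _).1 hx0).re_inner_nonneg_right _
  rw [e4, Complex.ofReal_one, one_mul] at h2
  have h4 := (Complex.abs_re_le_norm _).trans h2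
  rw [Complex.sub_re] at h4
  have h5 : -(δ' * (Cb * ‖x‖)) ≤ (⟪ξ, (star b) ((b * E x) ξ)⟫_ℂ).re := by
    have := (abs_le.1 h4).2
    have h6 : δ' * ‖b * E x‖ ≤ δ' * (Cb * ‖x‖) := mul_le_mul_of_nonneg_left n2 hδ'
    linarith
  rw [← e1] at h1
  have h7 := (Complex.abs_re_le_norm _).trans h1
  rw [Complex.sub_re, Complex.re_ofReal_mul, e2, Complex.sub_re] at h7
  have h8 := (abs_le.1 h7).2
  have h9 : δ * ‖star a * E x‖ ≤ δ * ‖x‖ := mul_le_mul_of_nonneg_left n1 hδ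
  have h10 : l * (-(δ' * (Cb * ‖x‖))) ≤ l * (⟪ξ, (star b) ((b * E x) ξ)⟫_ℂ).re :=
    mul_le_mul_of_nonneg_left h5 hl.le
  nlinarith

/-- the case of contractions -/
lemma exists_near_right_one {l : ℝ} (hl : 0 < l) {ε : ℝ} (hε : 0 < ε) :
    ∃ δ : ℝ, 0 < δ ∧ ∀ a ∈ N, ‖a‖ ≤ 1 → Defect N ξ l δ a →
      ∃ r ∈ M.commutant, ‖r‖ ≤ Real.sqrt l ∧ ‖a ξ - r ξ‖ ≤ ε := by
  by_contra hcon
  push Not at hcon
  choose a haN ha1 haD har using fun n : ℕ => hcon (1 / ((n : ℝ) + 1)) (by positivity)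
  have hD : Dseq N ξ l a := by
    intro t ht
    filter_upwards [tendsto_one_div_add_atTop_nhds_zero_nat.eventually_lt_const ht] with n hn
    exact (haD n).mono hn.le
  obtain ⟨b, C, hbN, hbC, hb, hab⟩ := exists_sqrt_seq S.norm_one hl haN ha1 hD
  have hC : 0 ≤ C := (norm_nonneg _).trans (hbC 0)
  have hb' : Dseq N ξ 1 (fun n => star (b n)) := by
    have := hb.star one_pos
    rwa [inv_one] at this
  set t : ℝ := ε ^ 2 / (1 + l * C) with ht
  have hden : 0 < 1 + l * C := by positivity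
  have htpos : 0 < t := by positivity
  obtain ⟨n, hn1, hn2⟩ := ((hD t htpos).and (hb' t htpos)).exists
  have hd : t + l * (t * C) = ε ^ 2 := by
    rw [ht]; field_simp
  obtain ⟨r, hr, hr1, hr2⟩ := exists_dom_comm M (ξ := ξ) (η := a n ξ) (l := l)
    (δ := t + l * (t * C)) hl.le (by rw [hd]; positivity) (fun x hx hx0 =>
      S.dom_of_defect hl htpos.le htpos.le (haN n) (ha1 n) (hbN n) (hbC n) (hab n) hn1 hn2 hx hx0)
  rw [hd] at hr2
  have h1 := har n r hr hr1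
  rw [norm_sub_rev] at h1
  have h2 : ‖r ξ - a n ξ‖ ≤ ε :=
    (pow_le_pow_iff_left₀ (norm_nonneg _) hε.le two_ne_zero).1 hr2
  linarith

theorem exists_near_right {l : ℝ} (hl : 0 < l) {C : ℝ} (hC : 0 ≤ C) {ε : ℝ} (hε : 0 < ε) :
    ∃ δ : ℝ, 0 < δ ∧ ∀ a ∈ N, ‖a‖ ≤ C →
      Defect N ξ l δ a → ∃ r ∈ M.commutant, ‖r‖ ≤ Real.sqrt l * C ∧ ‖a ξ - r ξ‖ ≤ ε := by
  rcases hC.eq_or_lt with h0 | h0
  · refine ⟨1, one_pos, fun a _ haC _ => ⟨0, zero_mem _, by simp [← h0], ?_⟩⟩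
    have ha : a = 0 := norm_le_zero_iff.1 (haC.trans_eq h0.symm)
    rw [ha, zero_apply, sub_zero, norm_zero]
    exact hε.le
  · obtain ⟨δ, hδ, h⟩ := S.exists_near_right_one hl (ε := ε / C) (by positivity)
    refine ⟨C * δ, by positivity, fun a haN haC haD => ?_⟩
    have e1 : ‖((C⁻¹ : ℝ) : ℂ)‖ = C⁻¹ := by
      rw [Complex.norm_real, Real.norm_of_nonneg (inv_pos.2 h0).le]
    have e2 : ((C : ℝ) : ℂ) * ((C⁻¹ : ℝ) : ℂ) = 1 := by
      rw [← Complex.ofReal_mul, mul_inv_cancel₀ h0.ne', Complex.ofReal_one]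
    obtain ⟨r, hr, hr1, hr2⟩ := h (((C⁻¹ : ℝ) : ℂ) • a) (smul_mem' _ haN) (by
      rw [norm_smul, e1, inv_mul_le_iff₀ h0, mul_one]
      exact haC) (by
      have := haD.smul ((C⁻¹ : ℝ) : ℂ)
      rwa [e1, inv_mul_cancel_left₀ h0.ne'] at this)
    refine ⟨((C : ℝ) : ℂ) • r, smul_mem' _ hr, ?_, ?_⟩
    · rw [norm_smul, Complex.norm_real, Real.norm_of_nonneg hC, mul_comm]
      exact mul_le_mul_of_nonneg_right hr1 hC
    · have e3 : a ξ - (((C : ℝ) : ℂ) • r) ξ =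
          ((C : ℝ) : ℂ) • ((((C⁻¹ : ℝ) : ℂ) • a) ξ - r ξ) := by
        rw [smul_apply, smul_apply, smul_sub, smul_smul, e2, one_smul]
      rw [e3, norm_smul, Complex.norm_real, Real.norm_of_nonneg hC]
      calc C * ‖(((C⁻¹ : ℝ) : ℂ) • a) ξ - r ξ‖ ≤ C * (ε / C) :=
            mul_le_mul_of_nonneg_left hr2 hC
        _ = ε := by field_simp

lemma lamU_appR {l : ℝ} (hl : 0 < l) {a : ℕ → H →L[ℂ] H} (ha : LamU N ξ l a) :
    a ∈ AppR M ξ := by
  obtain ⟨haN, ⟨C, hC⟩, hD⟩ := ha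
  have hC0 : 0 ≤ C := (norm_nonneg _).trans (hC 0)
  refine ⟨fun n => S.le _ (haN n), ⟨C, hC⟩, fun ε hε => ?_⟩
  obtain ⟨δ, hδ, h⟩ := S.exists_near_right hl hC0 hε
  classical
  refine ⟨fun n => if h' : Defect N ξ l δ (a n) then (h (a n) (haN n) (hC n) h').choose else 0,
    fun n => ?_, ⟨Real.sqrt l * C, fun n => ?_⟩, ?_⟩
  · dsimp only
    split_ifs with h'
    · exact (h (a n) (haN n) (hC n) h').choose_spec.1
    · exact zero_mem _
  · dsimp only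
    split_ifs with h'
    · exact (h (a n) (haN n) (hC n) h').choose_spec.2.1
    · rw [norm_zero]; positivity
  · filter_upwards [hD δ hδ] with n hn
    rw [dif_pos hn]
    exact (h (a n) (haN n) (hC n) hn).choose_spec.2.2

omit S in
lemma lamU_star {l : ℝ} (hl : 0 < l) {a : ℕ → H →L[ℂ] H} (ha : LamU N ξ l a) :
    LamU N ξ l⁻¹ (fun n => star (a n)) := by
  obtain ⟨haN, ⟨C, hC⟩, hD⟩ := ha
  refine ⟨fun n => star_mem (haN n), ⟨C, fun n => by rw [norm_star]; exact hC n⟩,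
    fun ε hε => ?_⟩
  filter_upwards [hD (l * ε) (by positivity)] with n hn
  have := hn.star hl
  rwa [← mul_assoc, inv_mul_cancel₀ hl.ne', one_mul] at this

theorem lamU_appS {l : ℝ} (hl : 0 < l) {a : ℕ → H →L[ℂ] H} (ha : LamU N ξ l a) :
    a ∈ AppS M ξ :=
  ⟨S.lamU_appR hl ha, S.lamU_appR (inv_pos.2 hl) (lamU_star hl ha)⟩

end Setting

end Pool.Agent.Helper23
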