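import Pool.Agent.Helper23.UDefs

/-!
# Module U1: the Hilbert space ultrapower
-/

open scoped InnerProductSpace Topology
open ContinuousLinearMap Filter

namespace Pool.Agent.Helper23

universe u

/-! ### limits of bounded sequences along the ultrafilter -/

section lims

theorem UU_neBot : (UU : Filter ℕ).NeBot := UU.neBot

/-- bounded sequences of scalars converge along the ultrafilter -/
theorem exists_ulim {f : ℕ → ℂ} (hf : Bdd f) : ∃ c : ℂ, Tendsto f (UU : Filter ℕ) (𝓝 c) := by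
  obtain ⟨C, hC⟩ := hf
  obtain ⟨c, -, hc⟩ := (isCompact_closedBall (0 : ℂ) C).ultrafilter_le_nhds (UU.map f) (by
    rw [Ultrafilter.coe_map, le_principal_iff, mem_map]
    exact Filter.univ_mem' fun n => by simpa using hC n)
  exact ⟨c, hc⟩

open Classical in
/-- the limit along the ultrafilter -/
noncomputable def ulim (f : ℕ → ℂ) : ℂ :=
  if h : ∃ c : ℂ, Tendsto f (UU : Filter ℕ) (𝓝 c) then h.choose else 0

theorem tendsto_ulim {f : ℕ → ℂ} (hf : Bdd f) : Tendsto f (UU : Filter ℕ) (𝓝 (ulim f)) := by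
  unfold ulim
  rw [dif_pos (exists_ulim hf)]
  exact (exists_ulim hf).choose_spec

theorem ulim_eq {f : ℕ → ℂ} {c : ℂ} (h : Tendsto f (UU : Filter ℕ) (𝓝 c)) : ulim f = c := by
  have := UU_neBot
  have h1 : ∃ c : ℂ, Tendsto f (UU : Filter ℕ) (𝓝 c) := ⟨c, h⟩
  unfold ulim
  rw [dif_pos h1]
  exact tendsto_nhds_unique h1.choose_spec h

end lims

/-! ### bounded sequences -/

section bdd

variable {G : Type*} [NormedAddCommGroup G]

theorem Bdd.add {x y : ℕ → G} (hx : Bdd x) (hy : Bdd y) : Bdd (fun n => x n + y n) := by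
  obtain ⟨C, hC⟩ := hx
  obtain ⟨D, hD⟩ := hy
  exact ⟨C + D, fun n => (norm_add_le _ _).trans (add_le_add (hC n) (hD n))⟩

theorem Bdd.sub {x y : ℕ → G} (hx : Bdd x) (hy : Bdd y) : Bdd (fun n => x n - y n) := by
  obtain ⟨C, hC⟩ := hx
  obtain ⟨D, hD⟩ := hy
  exact ⟨C + D, fun n => (norm_sub_le _ _).trans (add_le_add (hC n) (hD n))⟩

theorem Bdd.smul {𝕜 : Type*} [NormedField 𝕜] [NormedSpace 𝕜 G] (c : 𝕜) {x : ℕ → G} (hx : Bdd x) :
    Bdd (fun n => c • x n) := by
  obtain ⟨C, hC⟩ := hx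
  exact ⟨‖c‖ * C, fun n => by
    rw [norm_smul]; exact mul_le_mul_of_nonneg_left (hC n) (norm_nonneg _)⟩

theorem Bdd.zero : Bdd (fun _ : ℕ => (0 : G)) := ⟨0, fun n => by simp⟩

theorem Bdd.inner {H : Type*} [NormedAddCommGroup H] [InnerProductSpace ℂ H] {x y : ℕ → H}
    (hx : Bdd x) (hy : Bdd y) : Bdd (fun n => ⟪x n, y n⟫_ℂ) := by
  obtain ⟨C, hC⟩ := hx
  obtain ⟨D, hD⟩ := hy
  refine ⟨C * D, fun n => (norm_inner_le_norm _ _).trans ?_⟩
  exact mul_le_mul (hC n) (hD n) (norm_nonneg _) ((norm_nonneg _).trans (hC n))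

theorem Bdd.app {H : Type*} [NormedAddCommGroup H] [InnerProductSpace ℂ H] {a : ℕ → H →L[ℂ] H}
    {x : ℕ → H} (ha : Bdd a) (hx : Bdd x) : Bdd (fun n => a n (x n)) := by
  obtain ⟨C, hC⟩ := ha
  obtain ⟨D, hD⟩ := hx
  refine ⟨C * D, fun n => ((a n).le_opNorm _).trans ?_⟩
  exact mul_le_mul (hC n) (hD n) (norm_nonneg _) ((norm_nonneg _).trans (hC n))

end bdd

/-! ### the space of bounded sequences -/

section BSeq

variable (H : Type u) [NormedAddCommGroup H] [InnerProductSpace ℂ H]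

/-- the bounded sequences as a submodule -/
def bsub : Submodule ℂ (ℕ → H) where
  carrier := {x | Bdd x}
  add_mem' := fun hx hy => hx.add hy
  zero_mem' := Bdd.zero
  smul_mem' := fun c _ hx => hx.smul c

/-- the bounded sequences, to be given the seminorm of the ultrapower -/
def BSeq : Type u := bsub H

noncomputable instance : AddCommGroup (BSeq H) := inferInstanceAs (AddCommGroup (bsub H))
noncomputable instance : Module ℂ (BSeq H) := inferInstanceAs (Module ℂ (bsub H))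

variable {H}

/-- the underlying sequence -/
def BSeq.v (x : BSeq H) : ℕ → H := Subtype.val (p := fun x => x ∈ bsub H) x

theorem BSeq.bdd (x : BSeq H) : Bdd x.v := Subtype.prop (p := fun x => x ∈ bsub H) x

/-- the element given by a bounded sequence -/
def BSeq.of (x : ℕ → H) (hx : Bdd x) : BSeq H := (⟨x, hx⟩ : bsub H)

theorem BSeq.of_v (x : ℕ → H) (hx : Bdd x) : (BSeq.of x hx).v = x := rfl

theorem BSeq.add_v (x y : BSeq H) (n : ℕ) : (x + y).v n = x.v n + y.v n := rfl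
theorem BSeq.sub_v (x y : BSeq H) (n : ℕ) : (x - y).v n = x.v n - y.v n := rfl
theorem BSeq.smul_v (c : ℂ) (x : BSeq H) (n : ℕ) : (c • x).v n = c • x.v n := rfl

theorem BSeq.tendsto_inner (x y : BSeq H) :
    Tendsto (fun n => ⟪x.v n, y.v n⟫_ℂ) (UU : Filter ℕ) (𝓝 (ulim fun n => ⟪x.v n, y.v n⟫_ℂ)) :=
  tendsto_ulim (x.bdd.inner y.bdd)

/-- the semi-inner product -/
@[instance_reducible] noncomputable def bcore : PreInnerProductSpace.Core ℂ (BSeq H) where
  inner x y := ulim fun n => ⟪x.v n, y.v n⟫_ℂ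
  conj_inner_symm x y := by
    refine (ulim_eq ?_).symm
    refine ((Complex.continuous_conj.tendsto _).comp (BSeq.tendsto_inner y x)).congr fun n => ?_
    exact inner_conj_symm _ _
  re_inner_nonneg x := by
    have := UU_neBot
    refine ge_of_tendsto ((Complex.continuous_re.tendsto _).comp (BSeq.tendsto_inner x x)) ?_
    exact Filter.Eventually.of_forall fun n => inner_self_nonneg (𝕜 := ℂ) (x := x.v n)
  add_left x y z := by
    refine ulim_eq ?_
    refine ((BSeq.tendsto_inner x z).add (BSeq.tendsto_inner y z)).congr fun n => ?_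
    rw [BSeq.add_v, inner_add_left]
  smul_left x y r := by
    refine ulim_eq ?_
    refine ((BSeq.tendsto_inner x y).const_mul _).congr fun n => ?_
    rw [BSeq.smul_v, inner_smul_left]

noncomputable instance : SeminormedAddCommGroup (BSeq H) :=
  @InnerProductSpace.Core.toSeminormedAddCommGroup ℂ (BSeq H) _ _ _ bcore

noncomputable instance : InnerProductSpace ℂ (BSeq H) := InnerProductSpace.ofCore bcore

theorem BSeq.inner_tendsto (x y : BSeq H) :
    Tendsto (fun n => ⟪x.v n, y.v n⟫_ℂ) (UU : Filter ℕ) (𝓝 ⟪x, y⟫_ℂ) :=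
  BSeq.tendsto_inner x y

theorem norm_tendsto_of_inner {H K : Type*} [NormedAddCommGroup H] [InnerProductSpace ℂ H]
    [SeminormedAddCommGroup K] [InnerProductSpace ℂ K] {x : ℕ → H} {v : K}
    (h : Tendsto (fun n => ⟪x n, x n⟫_ℂ) (UU : Filter ℕ) (𝓝 ⟪v, v⟫_ℂ)) :
    Tendsto (fun n => ‖x n‖) (UU : Filter ℕ) (𝓝 ‖v‖) := by
  have h1 := (Complex.continuous_re.tendsto _).comp h
  have h2 := (Real.continuous_sqrt.tendsto _).comp h1
  have e1 : Real.sqrt (Complex.re ⟪v, v⟫_ℂ) = ‖v‖ := (norm_eq_sqrt_re_inner (𝕜 := ℂ) v).symm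
  rw [e1] at h2
  refine h2.congr fun n => ?_
  exact (norm_eq_sqrt_re_inner (𝕜 := ℂ) (x n)).symm

theorem BSeq.norm_tendsto (x : BSeq H) : Tendsto (fun n => ‖x.v n‖) (UU : Filter ℕ) (𝓝 ‖x‖) :=
  norm_tendsto_of_inner (BSeq.inner_tendsto x x)

theorem UU_le_atTop : (UU : Filter ℕ) ≤ atTop := by
  unfold UU
  rw [← Nat.cofinite_eq_atTop]
  exact hyperfilter_le_cofinite

instance : CompleteSpace (BSeq H) := by
  have := UU_neBot
  refine Metric.complete_of_convergent_controlled_sequences (fun N => (1 / 2) ^ N) (by simp) ?_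
  intro z hz
  -- closeness of consecutive terms
  let P : ℕ → ℕ → Prop := fun n k => ∀ j < k, ‖(z j).v n - (z (j + 1)).v n‖ < (1 / 2) ^ j
  classical
  let κ : ℕ → ℕ := fun n => Nat.findGreatest (P n) n
  have hκ : ∀ n, P n (κ n) := fun n =>
    Nat.findGreatest_spec (P := P n) (Nat.zero_le n) (fun j hj => absurd hj (Nat.not_lt_zero _))
  have hgeo : ∀ n k d, (∀ j < k + d, ‖(z j).v n - (z (j + 1)).v n‖ < (1 / 2 : ℝ) ^ j) →
      ‖(z k).v n - (z (k + d)).v n‖ ≤ 2 * (1 / 2) ^ k - 2 * (1 / 2) ^ (k + d) := by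
    intro n k d
    induction d with
    | zero => intro _; simp
    | succ d ih =>
      intro h
      have h1 := ih fun j hj => h j (by omega)
      have h2 := (h (k + d) (by omega)).le
      calc ‖(z k).v n - (z (k + (d + 1))).v n‖
          ≤ ‖(z k).v n - (z (k + d)).v n‖ + ‖(z (k + d)).v n - (z (k + d + 1)).v n‖ :=
            norm_sub_le_norm_sub_add_norm_sub _ _ _
        _ ≤ _ := by
            rw [show k + (d + 1) = k + d + 1 by ring, pow_succ (1 / 2 : ℝ) (k + d)]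
            linarith
  have hclose : ∀ n k, k ≤ κ n → ‖(z k).v n - (z (κ n)).v n‖ ≤ 2 * (1 / 2) ^ k := by
    intro n k hk
    obtain ⟨d, hd⟩ := Nat.exists_eq_add_of_le hk
    have h1 := hgeo n k d (by rw [← hd]; exact hκ n)
    rw [← hd] at h1
    have : (0 : ℝ) ≤ 2 * (1 / 2) ^ κ n := by positivity
    linarith
  have hbdd : Bdd (fun n => (z (κ n)).v n) := by
    obtain ⟨C, hC⟩ := (z 0).bdd
    refine ⟨C + 2, fun n => ?_⟩
    have h1 := hclose n 0 (Nat.zero_le _)
    have h2 := hC n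
    have h3 : ‖(z (κ n)).v n‖ ≤ ‖(z 0).v n‖ + ‖(z 0).v n - (z (κ n)).v n‖ := by
      have := norm_sub_le ((z 0).v n) ((z 0).v n - (z (κ n)).v n)
      rwa [sub_sub_cancel] at this
    simp only [pow_zero, mul_one] at h1
    linarith
  refine ⟨BSeq.of _ hbdd, ?_⟩
  rw [tendsto_iff_dist_tendsto_zero]
  have hle : ∀ k, dist (z k) (BSeq.of _ hbdd) ≤ 2 * (1 / 2) ^ k := by
    intro k
    rw [dist_eq_norm]
    refine le_of_tendsto (BSeq.norm_tendsto _) ?_
    have hj : ∀ j, ∀ᶠ n in (UU : Filter ℕ), ‖(z j).v n - (z (j + 1)).v n‖ < (1 / 2 : ℝ) ^ j := by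
      intro j
      have h1 := BSeq.norm_tendsto (z j - z (j + 1))
      have h2 := hz j j (j + 1) le_rfl (by omega)
      rw [dist_eq_norm] at h2
      exact h1.eventually_lt_const h2
    have hall : ∀ᶠ n in (UU : Filter ℕ), ∀ j ∈ Finset.range k,
        ‖(z j).v n - (z (j + 1)).v n‖ < (1 / 2 : ℝ) ^ j :=
      (Filter.eventually_all_finset _).2 fun j _ => hj j
    have hge : ∀ᶠ n in (UU : Filter ℕ), k ≤ n := UU_le_atTop (eventually_ge_atTop k)
    filter_upwards [hall, hge] with n h1 h2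
    have h3 : k ≤ κ n := Nat.le_findGreatest h2 fun j hj => h1 j (Finset.mem_range.2 hj)
    rw [BSeq.sub_v]
    exact hclose n k h3
  refine squeeze_zero (fun _ => dist_nonneg) hle ?_
  have := (tendsto_pow_atTop_nhds_zero_of_lt_one (r := (1 / 2 : ℝ)) (by norm_num)
    (by norm_num)).const_mul 2
  simpa using this

end BSeq

/-! ### existence -/

open Classical in
/-- the class of a sequence -/
noncomputable def bmk (H : Type u) [NormedAddCommGroup H] [InnerProductSpace ℂ H] (x : ℕ → H) :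
    SeparationQuotient (BSeq H) :=
  if h : Bdd x then SeparationQuotient.mk (BSeq.of x h) else 0

theorem bmk_of {H : Type u} [NormedAddCommGroup H] [InnerProductSpace ℂ H] {x : ℕ → H}
    (h : Bdd x) : bmk H x = SeparationQuotient.mk (BSeq.of x h) := by
  unfold bmk; rw [dif_pos h]

/-- truncation of a vector -/
theorem hup_exists_trunc {H : Type*} [NormedAddCommGroup H] [InnerProductSpace ℂ H] (x : H) {r : ℝ}
    (hr : 0 ≤ r) : ∃ y : H, ‖y‖ ≤ r ∧ ‖x - y‖ ≤ |‖x‖ - r| := by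
  by_cases h : ‖x‖ ≤ r
  · exact ⟨x, h, by rw [sub_self, norm_zero]; positivity⟩
  · push Not at h
    have hx : 0 < ‖x‖ := hr.trans_lt h
    have hq : r / ‖x‖ ≤ 1 := (div_le_one hx).2 h.le
    have hq0 : 0 ≤ r / ‖x‖ := by positivity
    refine ⟨((r / ‖x‖ : ℝ) : ℂ) • x, ?_, ?_⟩
    · rw [norm_smul, Complex.norm_real, Real.norm_of_nonneg hq0, div_mul_cancel₀ _ hx.ne']
    · have e : x - ((r / ‖x‖ : ℝ) : ℂ) • x = ((1 - r / ‖x‖ : ℝ) : ℂ) • x := by
        rw [Complex.ofReal_sub, Complex.ofReal_one, sub_smul, one_smul]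
      rw [e, norm_smul, Complex.norm_real, Real.norm_of_nonneg (by linarith), sub_mul, one_mul,
        div_mul_cancel₀ _ hx.ne']
      exact le_abs_self _

theorem exists_HUP (H : Type u) [NormedAddCommGroup H] [InnerProductSpace ℂ H] [CompleteSpace H] :
    ∃ (K : Type u) (_ : NormedAddCommGroup K) (_ : InnerProductSpace ℂ K) (_ : CompleteSpace K)
      (mk : (ℕ → H) → K), HUP mk := by
  refine ⟨SeparationQuotient (BSeq H), inferInstance, inferInstance, inferInstance, bmk H, ?_⟩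
  have hin : ∀ x y : ℕ → H, Bdd x → Bdd y →
      Tendsto (fun n => ⟪x n, y n⟫_ℂ) (UU : Filter ℕ) (𝓝 ⟪bmk H x, bmk H y⟫_ℂ) := by
    intro x y hx hy
    rw [bmk_of hx, bmk_of hy, SeparationQuotient.inner_mk_mk]
    exact BSeq.inner_tendsto (BSeq.of x hx) (BSeq.of y hy)
  refine ⟨?_, ?_, hin, ?_⟩
  · intro x y hx hy
    rw [bmk_of (hx.add hy), bmk_of hx, bmk_of hy, ← SeparationQuotient.mk_add]
    rfl
  · intro c x hx
    rw [bmk_of (hx.smul c), bmk_of hx, ← SeparationQuotient.mk_smul]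
    rfl
  · intro v
    obtain ⟨z, rfl⟩ := SeparationQuotient.surjective_mk v
    have hz : Tendsto (fun n => ‖z.v n‖) (UU : Filter ℕ) (𝓝 ‖SeparationQuotient.mk z‖) := by
      rw [SeparationQuotient.norm_mk]; exact BSeq.norm_tendsto z
    choose y hy1 hy2 using fun n =>
      hup_exists_trunc (z.v n) (norm_nonneg (SeparationQuotient.mk z : SeparationQuotient (BSeq H)))
    have hyb : Bdd y := ⟨_, hy1⟩
    refine ⟨y, hy1, ?_⟩
    rw [bmk_of hyb, eq_comm, ← sub_eq_zero, ← norm_eq_zero, ← SeparationQuotient.mk_sub,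
      SeparationQuotient.norm_mk]
    have := UU_neBot
    refine tendsto_nhds_unique (BSeq.norm_tendsto (z - BSeq.of y hyb)) ?_
    refine squeeze_zero (fun n => norm_nonneg _) (fun n => hy2 n) ?_
    have := (hz.sub_const ‖SeparationQuotient.mk z‖).abs
    simpa using this

/-! ### consequences of the axioms -/

variable {H : Type u} [NormedAddCommGroup H] [InnerProductSpace ℂ H] [CompleteSpace H]
variable {K : Type u} [NormedAddCommGroup K] [InnerProductSpace ℂ K] [CompleteSpace K]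

namespace HUP

variable {mk : (ℕ → H) → K} (h : HUP mk)
include h

theorem norm_tendsto {x : ℕ → H} (hx : Bdd x) :
    Tendsto (fun n => ‖x n‖) (UU : Filter ℕ) (𝓝 ‖mk x‖) :=
  norm_tendsto_of_inner (h.inner x x hx hx)

theorem mk_sub {x y : ℕ → H} (hx : Bdd x) (hy : Bdd y) :
    mk (fun n => x n - y n) = mk x - mk y := by
  have h1 := h.smul (-1) y hy
  have h2 := h.add x (fun n => (-1 : ℂ) • y n) hx (hy.smul _)
  rw [h1] at h2
  simp only [neg_smul, one_smul, ← sub_eq_add_neg] at h2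
  exact h2

theorem mk_eq {x y : ℕ → H} (hx : Bdd x) (hy : Bdd y) :
    mk x = mk y ↔ Tendsto (fun n => ‖x n - y n‖) (UU : Filter ℕ) (𝓝 0) := by
  have := UU_neBot
  have h1 := h.norm_tendsto (hx.sub hy)
  rw [h.mk_sub hx hy] at h1
  constructor
  · intro h2
    rw [h2, sub_self, norm_zero] at h1
    exact h1
  · intro h2
    have := tendsto_nhds_unique h1 h2
    rwa [norm_eq_zero, sub_eq_zero] at this

/-- the class of `a x` depends only on the class of `x` -/
theorem mk_app_eq {a : ℕ → H →L[ℂ] H} (ha : Bdd a) {x y : ℕ → H} (hx : Bdd x) (hy : Bdd y)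
    (hxy : mk x = mk y) : mk (fun n => a n (x n)) = mk (fun n => a n (y n)) := by
  rw [h.mk_eq (ha.app hx) (ha.app hy)]
  rw [h.mk_eq hx hy] at hxy
  obtain ⟨C, hC⟩ := ha
  have h2 := hxy.const_mul C
  rw [mul_zero] at h2
  refine squeeze_zero (fun n => norm_nonneg _) (fun n => ?_) h2
  rw [← map_sub]
  exact ((a n).le_opNorm _).trans (mul_le_mul_of_nonneg_right (hC n) (norm_nonneg _))

/-- norm bound -/
theorem norm_mk_le {x : ℕ → H} {C : ℝ} (hx : ∀ n, ‖x n‖ ≤ C) : ‖mk x‖ ≤ C := by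
  have := UU_neBot
  exact le_of_tendsto (h.norm_tendsto ⟨C, hx⟩) (Filter.Eventually.of_forall hx)

theorem exists_op {a : ℕ → H →L[ℂ] H} (ha : Bdd a) :
    ∃ T : K →L[ℂ] K, ∀ x, Bdd x → T (mk x) = mk (fun n => a n (x n)) := by
  obtain ⟨C, hC⟩ := id ha
  have hC0 : 0 ≤ C := (norm_nonneg _).trans (hC 0)
  choose s hs1 hs2 using h.surj
  have hsb : ∀ v, Bdd (s v) := fun v => ⟨_, hs1 v⟩
  have key : ∀ x, Bdd x → mk (fun n => a n (s (mk x) n)) = mk (fun n => a n (x n)) :=
    fun x hx => h.mk_app_eq ha (hsb _) hx (hs2 _)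
  let L : K →ₗ[ℂ] K :=
    { toFun := fun v => mk (fun n => a n (s v n))
      map_add' := fun v w => by
        have e1 : mk (fun n => s v n + s w n) = v + w := by
          rw [h.add _ _ (hsb v) (hsb w), hs2, hs2]
        have e2 := key _ ((hsb v).add (hsb w))
        rw [e1] at e2
        rw [e2, ← h.add _ _ (ha.app (hsb v)) (ha.app (hsb w))]
        simp only [map_add]
      map_smul' := fun c v => by
        have e1 : mk (fun n => c • s v n) = c • v := by
          rw [h.smul _ _ (hsb v), hs2]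
        have e2 := key _ ((hsb v).smul c)
        rw [e1] at e2
        rw [e2, RingHom.id_apply, ← h.smul _ _ (ha.app (hsb v))]
        simp only [map_smul] }
  refine ⟨L.mkContinuous C fun v => ?_, fun x hx => key x hx⟩
  exact h.norm_mk_le fun n => ((a n).le_opNorm _).trans
    (mul_le_mul (hC n) (hs1 v n) (norm_nonneg _) hC0)

theorem opU_mk {a : ℕ → H →L[ℂ] H} (ha : Bdd a) {x : ℕ → H} (hx : Bdd x) :
    opU mk a (mk x) = mk (fun n => a n (x n)) := by
  unfold opU
  rw [dif_pos (h.exists_op ha)]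
  exact (h.exists_op ha).choose_spec x hx

theorem opU_norm {a : ℕ → H →L[ℂ] H} {C : ℝ} (ha : ∀ n, ‖a n‖ ≤ C) : ‖opU mk a‖ ≤ C := by
  have hC0 : 0 ≤ C := (norm_nonneg _).trans (ha 0)
  refine ContinuousLinearMap.opNorm_le_bound _ hC0 fun v => ?_
  obtain ⟨x, hx, rfl⟩ := h.surj v
  rw [h.opU_mk ⟨C, ha⟩ ⟨_, hx⟩]
  exact h.norm_mk_le fun n => ((a n).le_opNorm _).trans
    (mul_le_mul (ha n) (hx n) (norm_nonneg _) hC0)

theorem opU_add {a b : ℕ → H →L[ℂ] H} (ha : Bdd a) (hb : Bdd b) :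
    opU mk (fun n => a n + b n) = opU mk a + opU mk b := by
  ext v
  obtain ⟨x, hx, rfl⟩ := h.surj v
  have hx : Bdd x := ⟨_, hx⟩
  rw [_root_.add_apply, h.opU_mk (ha.add hb) hx, h.opU_mk ha hx, h.opU_mk hb hx,
    ← h.add _ _ (ha.app hx) (hb.app hx)]
  rfl

theorem opU_smul (c : ℂ) {a : ℕ → H →L[ℂ] H} (ha : Bdd a) :
    opU mk (fun n => c • a n) = c • opU mk a := by
  ext v
  obtain ⟨x, hx, rfl⟩ := h.surj v
  have hx : Bdd x := ⟨_, hx⟩
  rw [_root_.smul_apply, h.opU_mk (ha.smul c) hx, h.opU_mk ha hx,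
    ← h.smul _ _ (ha.app hx)]
  rfl

theorem bdd_mul {a b : ℕ → H →L[ℂ] H} (ha : Bdd a) (hb : Bdd b) : Bdd (fun n => a n * b n) := by
  obtain ⟨C, hC⟩ := ha
  obtain ⟨D, hD⟩ := hb
  exact ⟨C * D, fun n => (norm_mul_le _ _).trans
    (mul_le_mul (hC n) (hD n) (norm_nonneg _) ((norm_nonneg _).trans (hC n)))⟩

theorem opU_mul {a b : ℕ → H →L[ℂ] H} (ha : Bdd a) (hb : Bdd b) :
    opU mk (fun n => a n * b n) = opU mk a * opU mk b := by
  ext v
  obtain ⟨x, hx, rfl⟩ := h.surj v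
  have hx : Bdd x := ⟨_, hx⟩
  rw [mul_apply_eq_comp, h.opU_mk (h.bdd_mul ha hb) hx, h.opU_mk hb hx,
    h.opU_mk ha (hb.app hx)]
  rfl

theorem opU_star {a : ℕ → H →L[ℂ] H} (ha : Bdd a) :
    opU mk (fun n => star (a n)) = star (opU mk a) := by
  have := UU_neBot
  have ha' : Bdd (fun n => star (a n)) := by
    obtain ⟨C, hC⟩ := ha
    exact ⟨C, fun n => by rw [norm_star]; exact hC n⟩
  refine ContinuousLinearMap.ext fun v => ?_
  refine ext_inner_right ℂ fun w => ?_
  obtain ⟨x, hx, rfl⟩ := h.surj v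
  obtain ⟨y, hy, rfl⟩ := h.surj w
  have hx : Bdd x := ⟨_, hx⟩
  have hy : Bdd y := ⟨_, hy⟩
  rw [ContinuousLinearMap.star_eq_adjoint, ContinuousLinearMap.adjoint_inner_left,
    h.opU_mk ha' hx, h.opU_mk ha hy]
  refine tendsto_nhds_unique (h.inner _ _ (ha'.app hx) hy) ?_
  refine (h.inner _ _ hx (ha.app hy)).congr fun n => ?_
  rw [ContinuousLinearMap.star_eq_adjoint, ContinuousLinearMap.adjoint_inner_left]

theorem opU_one : opU mk (fun _ => (1 : H →L[ℂ] H)) = 1 := by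
  ext v
  obtain ⟨x, hx, rfl⟩ := h.surj v
  rw [h.opU_mk ⟨‖(1 : H →L[ℂ] H)‖, fun _ => le_rfl⟩ ⟨_, hx⟩]
  rfl

end HUP

end Pool.Agent.Helper23
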